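import Mathlib
import Pool.Agent.R174.PrimC

/-!
# For every `n ≥ 1` there is a primitive lattice tiling with exactly `n` lattice translates
-/

set_option autoImplicit false

namespace Pool.Agent.Results.MP_f7d7fe_co.EveryNumberOfTiles

open Pool.Agent.R174.Prim

/-- A lattice translate in `ℤ^d`: a coset `v + L` of a subgroup `L` of finite index. -/
def IsLatticeTranslate {d : ℕ} (A : Set (Fin d → ℤ)) : Prop :=
  ∃ (v : Fin d → ℤ) (L : AddSubgroup (Fin d → ℤ)), L.FiniteIndex ∧ A = {x | x - v ∈ L}

/-- A lattice tiling of `ℤ^d` with `n` lattice translates: `n` lattice translates that are pairwise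
disjoint and whose union is `ℤ^d`. -/
def IsLatticeTiling {d n : ℕ} (A : Fin n → Set (Fin d → ℤ)) : Prop :=
  (∀ i, IsLatticeTranslate (A i)) ∧ (∀ i j, i ≠ j → Disjoint (A i) (A j)) ∧
    ⋃ i, A i = Set.univ

/-- The tiling splits: the index set has a partition into at least two (nonempty) blocks, one of
which has at least two elements, such that the union of the tiles of each block is a single lattice
translate. -/
def Splits {d n : ℕ} (A : Fin n → Set (Fin d → ℤ)) : Prop :=
  ∃ P : Finpartition (Finset.univ : Finset (Fin n)), 2 ≤ P.parts.card ∧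
    (∃ I ∈ P.parts, 2 ≤ I.card) ∧ ∀ I ∈ P.parts, IsLatticeTranslate (⋃ i ∈ I, A i)

/-- A primitive lattice tiling: one that does not split. -/
def IsPrimitive {d n : ℕ} (A : Fin n → Set (Fin d → ℤ)) : Prop :=
  IsLatticeTiling A ∧ ¬ Splits A

theorem transfer {G κ : Type} [AddCommGroup G] [Finite G] (n : ℕ) (ε : Fin n ≃ κ) (c : G → κ)
    (h1 : ∀ k, IsCoset {g | c g = k})
    (h2 : ∀ S : Set κ, IsCoset {g | c g ∈ S} → S = Set.univ ∨ S.Subsingleton) :
    ∃ d : ℕ, 1 ≤ d ∧ ∃ A : Fin n → Set (Fin d → ℤ), IsPrimitive A := by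
  classical
  have := Fintype.ofFinite G
  let e : G ≃ Fin (Fintype.card G) := Fintype.equivFin G
  let φ : (Fin (Fintype.card G) → ℤ) →+ G :=
    { toFun := fun x => ∑ i, x i • e.symm i
      map_zero' := by simp
      map_add' := fun x y => by simp [add_smul, Finset.sum_add_distrib] }
  have hφ : Function.Surjective φ := by
    intro g
    refine ⟨Pi.single (e g) 1, ?_⟩
    show ∑ i, (Pi.single (e g) 1 : Fin (Fintype.card G) → ℤ) i • e.symm i = g
    rw [Finset.sum_eq_single (e g)]
    · simp
    · intro j _ hj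
      simp [hj]
    · intro h
      exact (h (Finset.mem_univ _)).elim
  refine ⟨Fintype.card G, Fintype.card_pos_iff.2 ⟨0⟩, fun i => {x | c (φ x) = ε i}, ⟨?_, ?_, ?_⟩, ?_⟩
  · intro i
    obtain ⟨w, H, hw⟩ := h1 (ε i)
    obtain ⟨v, rfl⟩ := hφ w
    refine ⟨v, H.comap φ, ?_, ?_⟩
    · have hk : (H.comap φ).index = H.index := AddSubgroup.index_comap_of_surjective H hφ
      refine ⟨?_⟩
      rw [hk]
      exact AddSubgroup.index_ne_zero_of_finite
    · ext x
      have h3 : (φ x) ∈ {g | c g = ε i} ↔ φ x ∈ {x | x - φ v ∈ H} := by rw [hw]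
      show c (φ x) = ε i ↔ φ (x - v) ∈ H
      rw [map_sub]
      exact h3
  · intro i j hij
    rw [Set.disjoint_left]
    intro x hx hx'
    apply hij
    apply ε.injective
    exact hx.symm.trans hx'
  · rw [Set.eq_univ_iff_forall]
    intro x
    rw [Set.mem_iUnion]
    exact ⟨ε.symm (c (φ x)), by simp⟩
  · rintro ⟨P, hP, ⟨I, hI, hI2⟩, hall⟩
    obtain ⟨v, L, -, hL⟩ := hall I hI
    have hcos : IsCoset {g | c g ∈ (ε '' (I : Set (Fin n)) : Set κ)} := by
      have hmem : ∀ x, c (φ x) ∈ (ε '' (I : Set (Fin n)) : Set κ) ↔ x - v ∈ L := by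
        intro x
        have h3 : x ∈ (⋃ i ∈ I, {x | c (φ x) = ε i}) ↔ x ∈ {x | x - v ∈ L} := by rw [hL]
        have h4 : x ∈ (⋃ i ∈ I, {x | c (φ x) = ε i}) ↔
            c (φ x) ∈ (ε '' (I : Set (Fin n)) : Set κ) := by
          simp only [Set.mem_iUnion, Set.mem_image, Finset.mem_coe]
          constructor
          · rintro ⟨i, hi, hx⟩
            exact ⟨i, hi, hx.symm⟩
          · rintro ⟨i, hi, hx⟩
            exact ⟨i, hi, hx.symm⟩
        rw [← h4, h3]
        rfl
      refine isCoset_of_tri ⟨φ v, (hmem v).2 (by simp [L.zero_mem])⟩ ?_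
      intro x hx y hy z hz
      obtain ⟨x, rfl⟩ := hφ x
      obtain ⟨y, rfl⟩ := hφ y
      obtain ⟨z, rfl⟩ := hφ z
      have h3 := (hmem x).1 hx
      have h4 := (hmem y).1 hy
      have h5 := (hmem z).1 hz
      show c (φ x - φ y + φ z) ∈ (ε '' (I : Set (Fin n)) : Set κ)
      rw [← map_sub, ← map_add, hmem]
      have : x - y + z - v = (x - v) - (y - v) + (z - v) := by abel
      rw [this]
      exact L.add_mem (L.sub_mem h3 h4) h5
    rcases h2 _ hcos with h | h
    · -- then `I` is everything and there is only one block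
      have hIu : I = Finset.univ := by
        rw [Finset.eq_univ_iff_forall]
        intro i
        have : ε i ∈ (ε '' (I : Set (Fin n)) : Set κ) := by rw [h]; exact Set.mem_univ _
        obtain ⟨j, hj, hji⟩ := this
        rw [← ε.injective hji]
        exact hj
      have : P.parts ⊆ {I} := by
        intro J hJ
        rw [Finset.mem_singleton]
        by_contra hne
        have hd := P.disjoint hJ hI hne
        rw [hIu] at hd
        have hJe : J = ∅ := by
          have := hd.eq_bot_of_le (Finset.subset_univ J)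
          simpa using this
        have hb := P.ne_bot hJ
        exact hb (by rw [hJe]; rfl)
      have := Finset.card_le_card this
      rw [Finset.card_singleton] at this
      omega
    · obtain ⟨i, hi, j, hj, hij⟩ := Finset.one_lt_card.1 (show 1 < I.card by omega)
      exact hij (ε.injective (h ⟨i, hi, rfl⟩ ⟨j, hj, rfl⟩))

/-- there is a primitive partition of the special kind with `n` tiles -/
def HasSt (n : ℕ) : Prop :=
  ∃ (G : Type) (_ : AddCommGroup G) (ι : Type), Finite G ∧ Finite ι ∧ Nat.card ι + 2 = n ∧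
    Nonempty (St G ι)

theorem HasSt.step {n : ℕ} (h : HasSt n) : HasSt (n + 2) := by
  obtain ⟨G, i1, ι, h1, h2, h3, ⟨s⟩⟩ := h
  refine ⟨G × ZMod 2, inferInstance, ι ⊕ Fin 2, inferInstance, inferInstance, ?_, ⟨s.step⟩⟩
  rw [Nat.card_sum]
  simp
  omega

theorem hasSt4 : HasSt 4 := ⟨G3, inferInstance, Fin 2, inferInstance, inferInstance, by simp, ⟨base4⟩⟩

theorem hasSt7 : HasSt 7 := ⟨G4, inferInstance, Fin 5, inferInstance, inferInstance, by simp, ⟨base7⟩⟩

theorem HasSt.steps {n : ℕ} (h : HasSt n) (k : ℕ) : HasSt (n + 2 * k) := by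
  induction k with
  | zero => simpa using h
  | succ k ih =>
    have := ih.step
    rwa [show n + 2 * (k + 1) = n + 2 * k + 2 by ring]

theorem HasSt.primitive {n : ℕ} (h : HasSt n) :
    ∃ d : ℕ, 1 ≤ d ∧ ∃ A : Fin n → Set (Fin d → ℤ), IsPrimitive A := by
  obtain ⟨G, i1, ι, h1, h2, h3, ⟨s⟩⟩ := h
  have hc : Nat.card (ι ⊕ Fin 2) = n := by
    rw [Nat.card_sum]
    simp
    omega
  exact transfer n (Finite.equivFinOfCardEq hc).symm (fun g => mrg (s.d g)) s.coset s.prim

theorem one_primitive : ∃ d : ℕ, 1 ≤ d ∧ ∃ A : Fin 1 → Set (Fin d → ℤ), IsPrimitive A := by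
  refine transfer (G := ZMod 1) (κ := Fin 1) 1 (Equiv.refl _) (fun _ => 0) ?_ ?_
  · intro k
    refine isCoset_of_tri ⟨0, Subsingleton.elim _ _⟩ ?_
    intro x _ y _ z _
    exact Subsingleton.elim _ _
  · intro S _
    right
    intro x _ y _
    exact Subsingleton.elim _ _

theorem prime_primitive (p : ℕ) [hp : Fact p.Prime] :
    ∃ d : ℕ, 1 ≤ d ∧ ∃ A : Fin p → Set (Fin d → ℤ), IsPrimitive A := by
  have hc : Nat.card (ZMod p) = p := Nat.card_zmod p
  refine transfer (G := ZMod p) (κ := ZMod p) p (Finite.equivFinOfCardEq hc).symm (fun g => g) ?_ ?_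
  · intro k
    refine ⟨k, ⊥, ?_⟩
    ext x
    show x = k ↔ x - k ∈ (⊥ : AddSubgroup (ZMod p))
    rw [AddSubgroup.mem_bot, sub_eq_zero]
  · rintro S ⟨v, L, hS⟩
    have hpc : (Nat.card (ZMod p)).Prime := by rw [hc]; exact hp.out
    have hfact : Fact (Nat.card (ZMod p)).Prime := ⟨hpc⟩
    have hS' : S = {x | x - v ∈ L} := hS
    rcases AddSubgroup.eq_bot_or_eq_top_of_prime_card L with h | h
    · right
      rw [hS', h]
      intro x hx y hy
      have hx' : x - v = 0 := hx
      have hy' : y - v = 0 := hy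
      rw [sub_eq_zero.1 hx', sub_eq_zero.1 hy']
    · left
      rw [hS', h]
      ext x
      simp

/-- **Theorem.** For every positive integer `n` there are a dimension `d ≥ 1` and a primitive lattice
tiling of `ℤ^d` with exactly `n` lattice translates. -/
theorem result : ∀ n : ℕ, 1 ≤ n →
    ∃ d : ℕ, 1 ≤ d ∧ ∃ A : Fin n → Set (Fin d → ℤ), IsPrimitive A := by
  intro n hn
  rcases Nat.even_or_odd' n with ⟨k, hk | hk⟩
  · by_cases h2 : k = 1
    · subst h2
      subst hk
      have : Fact (Nat.Prime 2) := ⟨Nat.prime_two⟩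
      exact prime_primitive 2
    · have := hasSt4.steps (k - 2)
      have e : 4 + 2 * (k - 2) = n := by omega
      rw [e] at this
      exact this.primitive
  · by_cases h3 : 3 ≤ k
    · have := hasSt7.steps (k - 3)
      have e : 7 + 2 * (k - 3) = n := by omega
      rw [e] at this
      exact this.primitive
    · interval_cases k
      · subst hk
        exact one_primitive
      · subst hk
        have : Fact (Nat.Prime 3) := ⟨Nat.prime_three⟩
        exact prime_primitive 3
      · subst hk
        have : Fact (Nat.Prime 5) := ⟨Nat.prime_five⟩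
        exact prime_primitive 5

end Pool.Agent.Results.MP_f7d7fe_co.EveryNumberOfTiles
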